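import Pool.Agent.Work.MP_db9399_lc.Interface
import Pool.Agent.Work.MP_db9399_bg_helper84.UPAR

/-! THEOREM LC, block UPAR: the partners of the vertices of `UH` (helper84, from the block UPAR of
BIG): all neighbours with label in `inM` are partners. -/

set_option autoImplicit false

namespace Pool.Agent.Work.MP_db9399_lc.helper84

open Finset Classical
open Pool.Agent.Work.MP_db9399_all (nb)
open Pool.Agent.Work.MP_db9399_px (LWalk hit ee)
open Pool.Agent.Work.MP_db9399_dn (NB IsMat Tot)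
open Pool.Agent.Work.MP_db9399_bg (den cl LabP Good PN IsPat en enP Sep Near REnv r0 Deep Spr Ok
  Lbl bx c3f c3 rP rs rs_symm rR eP eR Vc qr qe EndSX HPre Ix NDec VCol UW Rg Jk Ub)
open Pool.Agent.Work.MP_db9399_bg (mem_nb mem_cl mem_bx den_bx card_univ_zmod card_univ_fin
  c3f_inj)
open Pool.Agent.Work.MP_db9399_bg.helper84 (split two card_c3 den_A den_Q lowA cntA)
open Pool.Agent.Work.MP_db9399_lc

universe u

/-- UCS twice: first one end of every edge, then the other end -/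
theorem twoS (hU : Stmt_UCS.{u}) (c δ : ℝ) (hc : 0 < c) (hδ : 0 < δ) :
    ∃ d0 : ℕ, ∀ {V : Type u} [Fintype V] (G : SimpleGraph V) (d D D' t k : ℕ)
      (UH U1 S : Finset V) (pt : V → V) (I : V → Finset (Fin k)) (Al : V → Fin k → Finset V),
      d0 ≤ d → c * d ≤ (t : ℝ) → 0 < D' → (∀ v, (nb G v).card ≤ d) →
      (∀ v, (nb G v ∩ UH).card ≤ 2) →
      U1 ⊆ UH → (∀ u ∈ UH, pt u ∈ UH) → (∀ u ∈ UH, pt (pt u) = u) →
      (∀ u ∈ UH, (u ∈ U1 ↔ pt u ∉ U1)) → (∀ u ∈ UH, (I u).card ≤ d) →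
      (∀ u ∈ UH, ∀ b ∈ I u, Al u b ⊆ nb G u ∧ D + 1 ≤ (Al u b).card) →
      (∀ u ∈ UH, ∀ v, ((I u).filter (fun b => v ∈ Al u b)).card + t ≤ D) →
      (∀ u ∈ UH, ∀ v ∈ nb G u ∩ S, D' + 1 ≤ ((I u).filter (fun b => v ∈ Al u b)).card) →
      (∀ u ∈ UH, ∀ b ∈ I u, (Al u b ∩ S).card + t ≤ D') →
      ∃ f : V → Fin k → V, (∀ u ∈ UH, ∀ b ∈ I u, f u b ∈ Al u b) ∧
        (∀ u ∈ UH, Set.InjOn (f u) (I u : Set (Fin k))) ∧
        (∀ u ∈ UH, ∀ b ∈ I u, b ∈ I (pt u) → f u b ≠ f (pt u) b) ∧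
        (∀ u ∈ UH, ∀ v ∈ nb G u ∩ S, ∃ b ∈ I u, f u b = v) ∧
        ∀ v b, (((nb G v).filter (fun x => ∃ u ∈ UH, b ∈ I u ∧ f u b = x)).card : ℝ) ≤
          δ * d := by
  obtain ⟨d0, h0⟩ := hU c (δ / 2) hc (by positivity)
  refine ⟨d0, ?_⟩
  intro V _ G d D D' t k UH U1 S pt I Al hd hct hD' hdeg h2 hU1 hpt hinv hsp hI hAl hcnt hS hS2
  obtain ⟨f1, h11, h12, h1s, h13⟩ := h0 G d D D' t k U1 S I Al hd hct hD' hdeg
    (fun v => (card_le_card (inter_subset_inter_left hU1)).trans (h2 v))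
    (fun u hu => hI u (hU1 hu))
    (fun u hu b hb => ⟨(hAl u (hU1 hu) b hb).1, by have := (hAl u (hU1 hu) b hb).2; omega⟩)
    (fun u hu v => hcnt u (hU1 hu) v)
    (fun u hu v hv => by have := hS u (hU1 hu) v hv; omega)
    (fun u hu b hb => hS2 u (hU1 hu) b hb)
  obtain ⟨Al2, hAl2⟩ : ∃ Al2 : V → Fin k → Finset V, Al2 = fun u b =>
    if b ∈ I (pt u) then (Al u b).erase (f1 (pt u) b) else Al u b := ⟨_, rfl⟩
  have hsub : ∀ u b, Al2 u b ⊆ Al u b := by
    intro u b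
    rw [hAl2]
    show (if b ∈ I (pt u) then (Al u b).erase (f1 (pt u) b) else Al u b) ⊆ Al u b
    split_ifs
    · exact erase_subset _ _
    · exact Subset.refl _
  have hmem : ∀ u b v, v ∈ Al u b → v ∉ Al2 u b → b ∈ I (pt u) ∧ f1 (pt u) b = v := by
    intro u b v h3 h4
    rw [hAl2] at h4
    change ¬ (v ∈ (if b ∈ I (pt u) then (Al u b).erase (f1 (pt u) b) else Al u b)) at h4
    by_cases h5 : b ∈ I (pt u)
    · rw [if_pos h5, mem_erase] at h4
      refine ⟨h5, ?_⟩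
      by_contra h6
      exact h4 ⟨fun h7 => h6 h7.symm, h3⟩
    · rw [if_neg h5] at h4
      exact absurd h3 h4
  obtain ⟨f2, h21, h22, h2s, h23⟩ := h0 G d D D' t k (UH \ U1) S I Al2
    hd hct hD' hdeg
    (fun v => (card_le_card (inter_subset_inter_left sdiff_subset)).trans (h2 v))
    (fun u hu => hI u (sdiff_subset hu))
    (fun u hu b hb => by
      obtain ⟨h3, h4⟩ := hAl u (sdiff_subset hu) b hb
      refine ⟨(hsub u b).trans h3, ?_⟩
      have h5 := pred_card_le_card_erase (s := Al u b) (a := f1 (pt u) b)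
      have h6 : (Al u b).erase (f1 (pt u) b) ⊆ Al2 u b := by
        intro v hv
        by_contra h7
        exact (mem_erase.mp hv).1 (hmem u b v (mem_of_mem_erase hv) h7).2.symm
      have h7 := card_le_card h6
      omega)
    (fun u hu v => by
      refine le_trans (Nat.add_le_add_right (card_le_card ?_) t) (hcnt u (sdiff_subset hu) v)
      intro b hb
      rw [mem_filter] at hb ⊢
      exact ⟨hb.1, hsub u b hb.2⟩)
    (fun u hu v hv => by
      have h3 := hS u (sdiff_subset hu) v hv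
      have hu2 := mem_sdiff.mp hu
      have hptu : pt u ∈ U1 := by
        by_contra h4
        exact hu2.2 ((hsp u hu2.1).mpr h4)
      have h4 : ((I u).filter (fun b => v ∈ Al u b)) ⊆
          ((I u).filter (fun b => v ∈ Al2 u b)) ∪
          ((I (pt u)).filter (fun b => f1 (pt u) b = v)) := by
        intro b hb
        rw [mem_filter] at hb
        rw [mem_union, mem_filter, mem_filter]
        by_cases h5 : v ∈ Al2 u b
        · exact Or.inl ⟨hb.1, h5⟩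
        · exact Or.inr (hmem u b v hb.2 h5)
      have h5 : ((I (pt u)).filter (fun b => f1 (pt u) b = v)).card ≤ 1 := by
        rw [card_le_one]
        intro b hb b' hb'
        rw [mem_filter] at hb hb'
        exact h12 (pt u) hptu (mem_coe.mpr hb.1) (mem_coe.mpr hb'.1) (hb.2.trans hb'.2.symm)
      have h6 := (card_le_card h4).trans (card_union_le _ _)
      omega)
    (fun u hu b hb => by
      have h3 := hS2 u (sdiff_subset hu) b hb
      have h4 := card_le_card (inter_subset_inter_right (u := S) (hsub u b))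
      omega)
  refine ⟨fun u b => if u ∈ U1 then f1 u b else f2 u b, ?_, ?_, ?_, ?_, ?_⟩
  · intro u hu b hb
    by_cases h : u ∈ U1
    · simp only [h, if_true]
      exact h11 u h b hb
    · simp only [h, if_false]
      exact hsub u b (h21 u (mem_sdiff.mpr ⟨hu, h⟩) b hb)
  · intro u hu
    by_cases h : u ∈ U1
    · simp only [h, if_true]
      exact h12 u h
    · simp only [h, if_false]
      exact h22 u (mem_sdiff.mpr ⟨hu, h⟩)
  · have key : ∀ u ∈ UH, u ∉ U1 → ∀ b ∈ I u, b ∈ I (pt u) → f2 u b ≠ f1 (pt u) b := by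
      intro u hu h b hb hb'
      have h4 := h21 u (mem_sdiff.mpr ⟨hu, h⟩) b hb
      rw [hAl2] at h4
      change f2 u b ∈ (if b ∈ I (pt u) then (Al u b).erase (f1 (pt u) b) else Al u b) at h4
      rw [if_pos hb'] at h4
      exact ne_of_mem_erase h4
    intro u hu b hb hb'
    by_cases h : u ∈ U1
    · have h3 : pt u ∉ U1 := (hsp u hu).mp h
      simp only [h, if_true, h3, if_false]
      have h4 := key (pt u) (hpt u hu) h3 b hb' (by rw [hinv u hu]; exact hb)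
      rw [hinv u hu] at h4
      exact h4.symm
    · have h3 : pt u ∈ U1 := by
        by_contra h3
        exact h ((hsp u hu).mpr h3)
      simp only [h, if_false, h3, if_true]
      exact key u hu h b hb hb'
  · intro u hu v hv
    by_cases h : u ∈ U1
    · simp only [h, if_true]
      exact h1s u h v hv
    · simp only [h, if_false]
      exact h2s u (mem_sdiff.mpr ⟨hu, h⟩) v hv
  · intro v b
    have h3 : ((nb G v).filter (fun x => ∃ u ∈ UH, b ∈ I u ∧
        (if u ∈ U1 then f1 u b else f2 u b) = x)) ⊆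
        ((nb G v).filter (fun x => ∃ u ∈ U1, b ∈ I u ∧ f1 u b = x)) ∪
        ((nb G v).filter (fun x => ∃ u ∈ UH \ U1, b ∈ I u ∧ f2 u b = x)) := by
      intro x hx
      rw [mem_filter] at hx
      obtain ⟨hx1, u, hu, hb, hfu⟩ := hx
      rw [mem_union, mem_filter, mem_filter]
      by_cases h : u ∈ U1
      · rw [if_pos h] at hfu
        exact Or.inl ⟨hx1, u, h, hb, hfu⟩
      · rw [if_neg h] at hfu
        exact Or.inr ⟨hx1, u, mem_sdiff.mpr ⟨hu, h⟩, hb, hfu⟩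
    have h4 : (((nb G v).filter (fun x => ∃ u ∈ UH, b ∈ I u ∧
        (if u ∈ U1 then f1 u b else f2 u b) = x)).card : ℝ) ≤
        (((nb G v).filter (fun x => ∃ u ∈ U1, b ∈ I u ∧ f1 u b = x)).card : ℝ) +
        (((nb G v).filter (fun x => ∃ u ∈ UH \ U1, b ∈ I u ∧ f2 u b = x)).card : ℝ) := by
      exact_mod_cast (card_le_card h3).trans (card_union_le _ _)
    have h5 := h13 v b
    have h6 := h23 v b
    linarith

section cnt
variable {V : Type u} [Fintype V] {l m r K K1 : ℕ}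

/-- the labels `lam` of the vertices which may be missed -/
noncomputable def Mset (l : ℕ) : Finset (ZMod (2 * l + 1)) :=
  univ.filter (fun t => 2 ≤ t.val ∧ t.val ≠ l ∧ t.val ≠ l + 1)

theorem card_Mset (hl : 2 ≤ l) : (Mset l).card ≤ 2 * l - 3 := by
  have h1 : (Mset l).card ≤ (((((range (2 * l + 1)).erase 0).erase 1).erase l).erase
      (l + 1)).card := by
    refine card_le_card_of_injOn (fun t => t.val) ?_ ?_
    · intro t ht
      have ht' := mem_coe.mp ht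
      unfold Mset at ht'
      rw [mem_filter] at ht'
      have h2 := ZMod.val_lt t
      rw [mem_coe, mem_erase, mem_erase, mem_erase, mem_erase, mem_range]
      refine ⟨ht'.2.2.2, ht'.2.2.1, ?_, ?_, h2⟩
      · have := ht'.2.1; intro h3; dsimp only at h3; omega
      · have := ht'.2.1; intro h3; dsimp only at h3; omega
    · intro t _ t' _ h
      exact ZMod.val_injective _ h
  refine h1.trans ?_
  rw [card_erase_of_mem, card_erase_of_mem, card_erase_of_mem, card_erase_of_mem, card_range]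
  · omega
  · rw [mem_range]; omega
  · rw [mem_erase, mem_range]; omega
  · rw [mem_erase, mem_erase, mem_range]; omega
  · rw [mem_erase, mem_erase, mem_erase, mem_range]; omega

theorem den_S (hl : 2 ≤ l) (a : ZMod (2 * m + 1)) (h : Fin m) :
    den (bx (c3 a h) (Mset l) univ univ univ univ : Finset (Lbl l m r K K1)) ≤
      3 * (2 * l - 3) / ((2 * (m : ℝ) + 1) * (2 * l + 1)) := by
  rw [den_bx, card_c3, card_univ_zmod, card_univ_fin, card_univ_fin, card_univ_fin]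
  have h1 : (0 : ℝ) < (2 * (m : ℝ) + 1) := by positivity
  have h2 : (0 : ℝ) < (2 * (l : ℝ) + 1) := by positivity
  have h3 : ((r : ℝ) + 1) ≠ 0 := by positivity
  have h4 : ((K : ℝ) + 1) ≠ 0 := by positivity
  have h5 : ((K1 : ℝ) + 1) ≠ 0 := by positivity
  have h6 : ((Mset l).card : ℝ) ≤ 2 * l - 3 := by
    have h7 := card_Mset hl
    have h8 : (Mset l).card + 3 ≤ 2 * l := by omega
    have h9 : (((Mset l).card + 3 : ℕ) : ℝ) ≤ ((2 * l : ℕ) : ℝ) := by exact_mod_cast h8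
    push_cast at h9
    linarith
  rw [div_self h3, div_self h1.ne', div_self h4, div_self h5]
  push_cast
  rw [mul_one, mul_one, mul_one, mul_one, div_mul_div_comm]
  exact div_le_div_of_nonneg_right (mul_le_mul_of_nonneg_left h6 (by norm_num)) (by positivity)

theorem den_B2 (hK : 4 ≤ K1) (y1 y2 : Fin (K1 + 1)) :
    3 / (5 * (2 * (l : ℝ) + 1)) ≤
    den (bx univ {0} univ univ univ ({y1, y2}ᶜ) : Finset (Lbl l m r K K1)) := by
  rw [den_bx, card_univ_zmod, card_univ_fin, card_univ_fin, card_singleton]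
  have h1 : (0 : ℝ) < (2 * (m : ℝ) + 1) := by positivity
  have h2 : (0 : ℝ) < (2 * (l : ℝ) + 1) := by positivity
  have h3 : ((r : ℝ) + 1) ≠ 0 := by positivity
  have h4 : ((K : ℝ) + 1) ≠ 0 := by positivity
  have h5 : (0 : ℝ) < ((K1 : ℝ) + 1) := by positivity
  have h6 : (K1 : ℝ) + 1 - 2 ≤ ((({y1, y2} : Finset (Fin (K1 + 1)))ᶜ).card : ℝ) := by
    have h7 : K1 + 1 ≤ (({y1, y2} : Finset (Fin (K1 + 1)))ᶜ).card + 2 := by
      rw [card_compl, Fintype.card_fin]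
      have := card_le_two (a := y1) (b := y2)
      omega
    have h8 : ((K1 + 1 : ℕ) : ℝ) ≤ (((({y1, y2} : Finset (Fin (K1 + 1)))ᶜ).card + 2 : ℕ) : ℝ) := by
      exact_mod_cast h7
    push_cast at h8
    linarith
  have hK' : (4 : ℝ) ≤ K1 := by exact_mod_cast hK
  rw [div_self h3, div_self h1.ne', div_self h4]
  rw [one_mul, mul_one, mul_one, mul_one]
  push_cast
  have h9 : (3 : ℝ) / 5 ≤ ((({y1, y2} : Finset (Fin (K1 + 1)))ᶜ).card : ℝ) / ((K1 : ℝ) + 1) := by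
    rw [le_div_iff₀ h5]
    linarith
  calc 3 / (5 * (2 * (l : ℝ) + 1)) = 1 / (2 * (l : ℝ) + 1) * (3 / 5) := by
        field_simp
    _ ≤ _ := mul_le_mul_of_nonneg_left h9 (by positivity)

/-- lower bound for the lists of the colours `e1 y` -/
theorem lowB2 {k d : ℕ} {G : SimpleGraph V} {σ c1 : ℝ} {UH : Finset V} {c0 : V → Fin k}
    {EH : SimpleGraph V} {tu : V → Fin k} {lab : V → Lbl l m r K K1} (hL : LabP G d σ c1 lab)
    (hH : HPre G UH c0 EH tu) (hK : 4 ≤ K1) (u : V) (y1 y2 : Fin (K1 + 1)) :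
    3 / (5 * (2 * (l : ℝ) + 1)) * (nb G u).card - σ * d - 2 ≤
      (((nb G u).filter (fun v => v ∉ UH ∧ (lab v).2.1 = 0 ∧ (lab v).2.2.2.2.2 ≠ y1 ∧
        (lab v).2.2.2.2.2 ≠ y2)).card : ℝ) := by
  have h1 := hL.deg u (bx univ {0} univ univ univ ({y1, y2}ᶜ))
  rw [abs_le] at h1
  have h0 := mul_le_mul_of_nonneg_right (den_B2 (l := l) (m := m) (r := r) (K := K) hK y1 y2)
    (Nat.cast_nonneg (α := ℝ) (nb G u).card)
  have h3 : nb G u ∩ cl lab (bx univ {0} univ univ univ ({y1, y2}ᶜ)) ⊆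
      (nb G u).filter (fun v => v ∉ UH ∧ (lab v).2.1 = 0 ∧ (lab v).2.2.2.2.2 ≠ y1 ∧
        (lab v).2.2.2.2.2 ≠ y2) ∪ (nb G u ∩ UH) := by
    intro v hv
    rw [mem_inter, mem_cl, mem_bx] at hv
    obtain ⟨hv1, _, hv3, _, _, _, hv4⟩ := hv
    rw [mem_compl, mem_insert, mem_singleton, not_or] at hv4
    rw [mem_union, mem_filter, mem_inter]
    by_cases hU : v ∈ UH
    · exact Or.inr ⟨hv1, hU⟩
    · exact Or.inl ⟨hv1, hU, mem_singleton.mp hv3, hv4.1, hv4.2⟩
  have h4 := (card_le_card h3).trans (card_union_le _ _)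
  have h5 := hH.two u
  have h7 : (((nb G u ∩ UH).card : ℕ) : ℝ) ≤ 2 := by exact_mod_cast h5
  have h8 : ((nb G u ∩ cl lab (bx univ {0} univ univ univ ({y1, y2}ᶜ))).card : ℝ) ≤
      (((nb G u).filter (fun v => v ∉ UH ∧ (lab v).2.1 = 0 ∧ (lab v).2.2.2.2.2 ≠ y1 ∧
        (lab v).2.2.2.2.2 ≠ y2)).card : ℝ) + ((nb G u ∩ UH).card : ℝ) := by
    exact_mod_cast h4
  linarith [h1.1]

/-- upper bound for the vertices of `S` in the lists of the colours `e x` -/
theorem uppS {w d : ℕ} {G : SimpleGraph V} {σ c1 : ℝ} {lab : V → Lbl l m r K K1}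
    (hL : LabP G d σ c1 lab) (hl : 2 ≤ l) (u : V) (x : Ix m w) :
    (((nb G u).filter (fun v => (lab v).1 ∈ c3 x.1 x.2.1 ∧ inM (lab v))).card : ℝ) ≤
      3 * (2 * l - 3) / ((2 * (m : ℝ) + 1) * (2 * l + 1)) * (nb G u).card + σ * d := by
  have h1 := hL.deg u (bx (c3 x.1 x.2.1) (Mset l) univ univ univ univ)
  rw [abs_le] at h1
  have h0 := mul_le_mul_of_nonneg_right (den_S (r := r) (K := K) (K1 := K1) hl x.1 x.2.1)
    (Nat.cast_nonneg (α := ℝ) (nb G u).card)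
  have h3 : (nb G u).filter (fun v => (lab v).1 ∈ c3 x.1 x.2.1 ∧ inM (lab v)) ⊆
      nb G u ∩ cl lab (bx (c3 x.1 x.2.1) (Mset l) univ univ univ univ) := by
    intro v hv
    rw [mem_filter] at hv
    rw [mem_inter, mem_cl, mem_bx]
    refine ⟨hv.1, hv.2.1, ?_, mem_univ _, mem_univ _, mem_univ _, mem_univ _⟩
    unfold Mset
    rw [mem_filter]
    exact ⟨mem_univ _, hv.2.2⟩
  have h4 : (((nb G u).filter (fun v => (lab v).1 ∈ c3 x.1 x.2.1 ∧ inM (lab v))).card : ℝ) ≤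
      ((nb G u ∩ cl lab (bx (c3 x.1 x.2.1) (Mset l) univ univ univ univ)).card : ℝ) := by
    exact_mod_cast card_le_card h3
  linarith [h1.2]

/-- exactly `3 m w` colours for every cell -/
theorem cntA2 {k w : ℕ} {e : Ix m w → Fin k} (he : Function.Injective e)
    (a : ZMod (2 * m + 1)) :
    3 * (m * w) ≤ (univ.filter (fun b => ∃ x, e x = b ∧ a ∈ c3 x.1 x.2.1)).card := by
  have h1 : (univ : Finset (Fin 3 × (Fin m × Fin w))).image (fun z => e (a -
        (c3f 0 z.2.1 z.1), z.2)) ⊆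
      univ.filter (fun b => ∃ x, e x = b ∧ a ∈ c3 x.1 x.2.1) := by
    intro b hb
    rw [mem_image] at hb
    obtain ⟨z, _, hz⟩ := hb
    rw [mem_filter]
    refine ⟨mem_univ _, _, hz, ?_⟩
    unfold c3
    rw [mem_image]
    refine ⟨z.1, mem_univ _, ?_⟩
    have h2 : ∀ (a' : ZMod (2 * m + 1)) (h : Fin m) (i : Fin 3),
        c3f a' h i = a' + c3f 0 h i := by
      intro a' h i
      unfold c3f
      fin_cases i <;> simp [sub_eq_add_neg]
    rw [h2]
    show a - c3f 0 z.2.1 z.1 + c3f 0 z.2.1 z.1 = a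
    ring
  refine le_trans (le_of_eq ?_) (card_le_card h1)
  rw [card_image_of_injective]
  · rw [card_univ, Fintype.card_prod, Fintype.card_prod, Fintype.card_fin, Fintype.card_fin,
      Fintype.card_fin]
  · intro z z' h
    have h3 := he h
    have h4 : z.2 = z'.2 := (Prod.ext_iff.mp h3).2
    have h5 : a - c3f 0 z.2.1 z.1 = a - c3f 0 z'.2.1 z'.1 := (Prod.ext_iff.mp h3).1
    rw [h4] at h5
    have h6 : c3f 0 z'.2.1 z.1 = c3f 0 z'.2.1 z'.1 := by
      have := sub_right_injective h5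
      exact this
    exact Prod.ext (c3f_inj 0 z'.2.1 h6) h4

end cnt

/-- numerical facts -/
theorem numA {N Λ r d X σ : ℝ} (hN : 3 ≤ N) (hΛ : 41 ≤ Λ) (hr : Λ ≤ r + 1)
    (hd : 100 * (N * Λ) ≤ d) (hX1 : (1 - 1 / (24 * Λ)) * d ≤ X) (hX2 : X ≤ d)
    (hσ : σ = 1 / (16 * (N * Λ))) :
    3 / N * (1 - 3 / (2 * Λ)) * d + d / (8 * (N * Λ)) + 1 ≤
      3 * (Λ - 1) / (N * Λ) * X - σ * d - 2 - (1 / (N * (r + 1)) * X + σ * d) := by
  have hN0 : 0 < N := by linarith
  have hΛ0 : 0 < Λ := by linarith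
  have hd0 : 0 < d := lt_of_lt_of_le (by positivity) hd
  obtain ⟨t, ht⟩ : ∃ t, t = d / (N * Λ) := ⟨_, rfl⟩
  have hdt : d = t * (N * Λ) := by rw [ht]; field_simp
  have ht16 : 100 ≤ t := by rw [ht, le_div_iff₀ (by positivity)]; exact hd
  have a1 : σ * d = t / 16 := by rw [hσ, hdt]; field_simp
  have a0 : d / (8 * (N * Λ)) = t / 8 := by rw [hdt]; field_simp
  have a2 : 1 / (N * (r + 1)) * X ≤ t := by
    have h1 : 1 / (N * (r + 1)) ≤ 1 / (N * Λ) :=
      one_div_le_one_div_of_le (by positivity) (mul_le_mul_of_nonneg_left hr hN0.le)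
    calc 1 / (N * (r + 1)) * X ≤ 1 / (N * Λ) * d :=
          mul_le_mul h1 hX2 (le_trans (by
            have : 1 / (24 * Λ) ≤ 1 := by
              rw [div_le_one (by positivity)]; linarith
            exact mul_nonneg (by linarith) hd0.le) hX1) (by positivity)
      _ = t := by rw [ht]; ring
  have a3 : 3 / N * (1 - 3 / (2 * Λ)) * d = 3 * Λ * t - 9 / 2 * t := by
    rw [hdt]; field_simp; ring
  have a4 : 3 * (Λ - 1) * t - t / 8 ≤ 3 * (Λ - 1) / (N * Λ) * X := by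
    have h1 : 3 * (Λ - 1) / (N * Λ) * ((1 - 1 / (24 * Λ)) * d) ≤ 3 * (Λ - 1) / (N * Λ) * X :=
      mul_le_mul_of_nonneg_left hX1 (div_nonneg (by linarith) (by positivity))
    refine le_trans ?_ h1
    have h2 : 3 * (Λ - 1) / (N * Λ) * ((1 - 1 / (24 * Λ)) * d) =
        3 * (Λ - 1) * t - (Λ - 1) / Λ * (t / 8) := by
      rw [hdt]; field_simp; ring
    rw [h2]
    have h3 : (Λ - 1) / Λ ≤ 1 := by rw [div_le_one hΛ0]; linarith
    have h4 : (Λ - 1) / Λ * (t / 8) ≤ 1 * (t / 8) :=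
      mul_le_mul_of_nonneg_right h3 (by linarith)
    linarith
  rw [a3, a0]
  linarith

theorem numB {N Λ d X σ : ℝ} (hN : 3 ≤ N) (hΛ : 41 ≤ Λ) (hd : 100 * (N * Λ) ≤ d)
    (hX1 : (1 - 1 / (24 * Λ)) * d ≤ X) (hσ : σ = 1 / (16 * (N * Λ))) :
    1 / (2 * Λ) * d + 2 ≤ 3 / (5 * Λ) * X - σ * d - 2 := by
  have hN0 : 0 < N := by linarith
  have hΛ0 : 0 < Λ := by linarith
  obtain ⟨s, hs⟩ : ∃ s, s = d / Λ := ⟨_, rfl⟩
  have hds : d = s * Λ := by rw [hs]; field_simp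
  have hs48 : 300 ≤ s := by
    rw [hs, le_div_iff₀ hΛ0]
    nlinarith
  have a1 : σ * d ≤ s / 48 := by
    have : σ * d = s / 16 * (1 / N) := by rw [hσ, hds]; field_simp
    rw [this]
    have h1 : 1 / N ≤ 1 / 3 := one_div_le_one_div_of_le (by norm_num) hN
    nlinarith
  have a2 : 1 / (2 * Λ) * d = s / 2 := by rw [hds]; field_simp
  have a3 : 3 / 5 * s - s / 40 ≤ 3 / (5 * Λ) * X := by
    have h1 : 3 / (5 * Λ) * ((1 - 1 / (24 * Λ)) * d) ≤ 3 / (5 * Λ) * X :=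
      mul_le_mul_of_nonneg_left hX1 (by positivity)
    refine le_trans ?_ h1
    have h2 : 3 / (5 * Λ) * ((1 - 1 / (24 * Λ)) * d) = 3 / 5 * s - s / 40 * (1 / Λ) := by
      rw [hds]; field_simp; ring
    rw [h2]
    have h3 : 1 / Λ ≤ 1 := by rw [div_le_one hΛ0]; linarith
    have h4 : s / 40 * (1 / Λ) ≤ s / 40 * 1 := mul_le_mul_of_nonneg_left h3 (by linarith)
    linarith
  rw [a2]
  linarith

theorem numS {N Λ d X σ : ℝ} (hN : 3 ≤ N) (hΛ : 41 ≤ Λ) (hd : 100 * (N * Λ) ≤ d)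
    (hX2 : X ≤ d) (hσ : σ = 1 / (16 * (N * Λ))) :
    3 * (Λ - 4) / (N * Λ) * X + σ * d + d / (8 * (N * Λ)) + 4 ≤
      3 / N * ((1 - 3 / Λ) * d) := by
  have hN0 : 0 < N := by linarith
  have hΛ0 : 0 < Λ := by linarith
  have hd0 : 0 < d := lt_of_lt_of_le (by positivity) hd
  obtain ⟨t, ht⟩ : ∃ t, t = d / (N * Λ) := ⟨_, rfl⟩
  have hdt : d = t * (N * Λ) := by rw [ht]; field_simp
  have ht16 : 100 ≤ t := by rw [ht, le_div_iff₀ (by positivity)]; exact hd
  have a1 : σ * d = t / 16 := by rw [hσ, hdt]; field_simp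
  have a0 : d / (8 * (N * Λ)) = t / 8 := by rw [hdt]; field_simp
  have a3 : 3 / N * ((1 - 3 / Λ) * d) = 3 * Λ * t - 9 * t := by
    rw [hdt]; field_simp; ring
  have a4 : 3 * (Λ - 4) / (N * Λ) * X ≤ 3 * (Λ - 4) * t := by
    have h1 : 3 * (Λ - 4) / (N * Λ) * X ≤ 3 * (Λ - 4) / (N * Λ) * d :=
      mul_le_mul_of_nonneg_left hX2 (div_nonneg (by linarith) (by positivity))
    refine h1.trans (le_of_eq ?_)
    rw [hdt]; field_simp
  rw [a3, a0, a1]
  linarith

theorem stmt_UPAR (hUS : Stmt_UCS.{u}) (hU : MP_db9399_bg.Stmt_UCL.{u}) : Stmt_UPAR.{u} := by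
  intro l m r K K1 δ hδ hl hm hr hK4
  obtain ⟨N, hNdef⟩ : ∃ N : ℝ, N = 2 * (m : ℝ) + 1 := ⟨_, rfl⟩
  obtain ⟨Λ, hΛdef⟩ : ∃ Λ : ℝ, Λ = 2 * (l : ℝ) + 1 := ⟨_, rfl⟩
  have hN3 : 3 ≤ N := by
    have : (1 : ℝ) ≤ m := by exact_mod_cast hm
    rw [hNdef]; linarith
  have hΛ41 : 41 ≤ Λ := by
    have : (20 : ℝ) ≤ l := by exact_mod_cast hl
    rw [hΛdef]; linarith
  have hN0 : 0 < N := by linarith
  have hΛ0 : 0 < Λ := by linarith
  have hr' : Λ ≤ (r : ℝ) + 1 := by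
    have : ((2 * l + 1 : ℕ) : ℝ) ≤ r := by exact_mod_cast hr
    push_cast at this
    rw [hΛdef]; linarith
  have hcB : 0 < 1 / (2 * Λ) := by positivity
  obtain ⟨dA, hdA⟩ := twoS hUS (1 / (16 * (N * Λ))) δ (by positivity) hδ
  obtain ⟨dB, hdB⟩ := two hU (1 / (2 * Λ)) δ hcB hδ
  refine ⟨1 / (16 * (N * Λ)), 1 / (24 * Λ), max (max dA dB) (100 * ((2 * m + 1) * (2 * l + 1))),
    by positivity, by positivity, ?_⟩
  intro V _ G d k w w1 g c1 UH c0 EH tu lab e e1 pal c hd hBG hL hH he he1 hee hV hw hwl hw1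
  have hd1 : dA ≤ d := le_trans (le_trans (le_max_left _ _) (le_max_left _ _)) hd
  have hd2 : dB ≤ d := le_trans (le_trans (le_max_right _ _) (le_max_left _ _)) hd
  have hd3 : 100 * (N * Λ) ≤ (d : ℝ) := by
    have h1 : 100 * ((2 * m + 1) * (2 * l + 1)) ≤ d := le_trans (le_max_right _ _) hd
    have h2 : ((100 * ((2 * m + 1) * (2 * l + 1)) : ℕ) : ℝ) ≤ d := by exact_mod_cast h1
    push_cast at h2
    rw [hNdef, hΛdef]
    exact h2
  have hd0 : (0 : ℝ) < d := lt_of_lt_of_le (by positivity) hd3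
  rw [← hNdef, ← hΛdef] at hw hwl
  rw [← hΛdef] at hw1
  obtain ⟨U1, pt, hU1, hpt, hadj, hinv, hsp⟩ := split hH
  -- the number of colours
  obtain ⟨tt, htt⟩ : ∃ tt : ℕ, tt = ⌊(d : ℝ) / (8 * (N * Λ))⌋₊ := ⟨_, rfl⟩
  have htt1 : (tt : ℝ) ≤ (d : ℝ) / (8 * (N * Λ)) := by
    rw [htt]
    exact Nat.floor_le (by positivity)
  have htt2 : 1 / (16 * (N * Λ)) * (d : ℝ) ≤ tt := by
    have h1 : (d : ℝ) / (8 * (N * Λ)) < tt + 1 := by
      rw [htt]
      exact Nat.lt_floor_add_one _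
    obtain ⟨s, hs⟩ : ∃ s, s = (d : ℝ) / (N * Λ) := ⟨_, rfl⟩
    have hs100 : 100 ≤ s := by rw [hs, le_div_iff₀ (by positivity)]; exact hd3
    have h2 : (d : ℝ) / (8 * (N * Λ)) = s / 8 := by rw [hs]; field_simp
    have h3 : 1 / (16 * (N * Λ)) * (d : ℝ) = s / 16 := by rw [hs]; field_simp
    rw [h2] at h1
    rw [h3]
    linarith
  obtain ⟨DA, hDA⟩ : ∃ DA : ℕ, DA = 3 * (m * w) + tt := ⟨_, rfl⟩
  obtain ⟨DB, hDB⟩ : ∃ DB : ℕ, DB = ⌈1 / (2 * Λ) * (d : ℝ)⌉₊ := ⟨_, rfl⟩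
  have h3mwu : (3 : ℝ) * (m * w) ≤ 3 / N * (1 - 3 / (2 * Λ)) * (d : ℝ) := by
    have h2 : (3 : ℝ) * (m * w) = 3 / N * (N * m * w) := by field_simp
    rw [h2, mul_assoc (3 / N)]
    exact mul_le_mul_of_nonneg_left hw (by positivity)
  have h3mwl : 3 / N * ((1 - 3 / Λ) * (d : ℝ)) ≤ (3 : ℝ) * (m * w) := by
    have h2 : (3 : ℝ) * (m * w) = 3 / N * (N * m * w) := by field_simp
    rw [h2]
    exact mul_le_mul_of_nonneg_left hwl (by positivity)
  have hDA1 : (DA : ℝ) ≤ 3 / N * (1 - 3 / (2 * Λ)) * (d : ℝ) + (d : ℝ) / (8 * (N * Λ)) := by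
    rw [hDA]
    push_cast
    linarith
  have hDB1 : 1 / (2 * Λ) * (d : ℝ) ≤ DB := by rw [hDB]; exact Nat.le_ceil _
  have hDB2 : (DB : ℝ) ≤ 1 / (2 * Λ) * (d : ℝ) + 1 := by
    rw [hDB]
    exact (Nat.ceil_lt_add_one (mul_nonneg hcB.le hd0.le)).le
  have hDBd : DB ≤ d := by
    have h1 : 1 / (2 * Λ) * (d : ℝ) + 1 ≤ d := by
      have h2 : 1 / (2 * Λ) ≤ 1 / 2 := one_div_le_one_div_of_le (by norm_num) (by linarith)
      have h3 : 1 / (2 * Λ) * (d : ℝ) ≤ 1 / 2 * d := mul_le_mul_of_nonneg_right h2 hd0.le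
      have h4 : (2 : ℝ) ≤ d := by nlinarith
      linarith
    exact_mod_cast hDB2.trans h1
  have h3mw5 : 5 ≤ 3 * (m * w) := by
    have h1 : (5 : ℝ) ≤ 3 * (m * w) := by
      refine le_trans ?_ h3mwl
      have h2 : 3 / N * ((1 - 3 / Λ) * (d : ℝ)) = 3 * (Λ - 3) * (d / (N * Λ)) := by
        field_simp
      have h3 : 100 ≤ (d : ℝ) / (N * Λ) := by rw [le_div_iff₀ (by positivity)]; exact hd3
      rw [h2]
      nlinarith
    exact_mod_cast h1
  have hK1w : (K1 + 1) * ((K1 + 1) * w1) ≤ DB := by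
    have h1 : ((K1 : ℝ) + 1) ^ 2 * w1 ≤ 1 / (2 * Λ) * (d : ℝ) := by
      refine hw1.trans ?_
      rw [div_mul_eq_mul_div, one_mul]
      exact div_le_div_of_nonneg_left hd0.le (by positivity) (by linarith)
    have h2 : (((K1 + 1) * ((K1 + 1) * w1) : ℕ) : ℝ) ≤ DB := by
      push_cast
      calc ((K1 : ℝ) + 1) * ((K1 + 1) * w1) = ((K1 : ℝ) + 1) ^ 2 * w1 := by ring
        _ ≤ DB := h1.trans hDB1
    exact_mod_cast h2
  -- cardinalities of the index sets
  have hcardA : (univ.filter (fun b : Fin k => b ∈ Set.range e)).card ≤ d := by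
    have h1 : univ.filter (fun b : Fin k => b ∈ Set.range e) ⊆ univ.image e := by
      intro b hb
      rw [mem_filter] at hb
      obtain ⟨x, hx⟩ := hb.2
      exact mem_image.mpr ⟨x, mem_univ _, hx⟩
    refine (card_le_card h1).trans (card_image_le.trans ?_)
    rw [card_univ, Fintype.card_prod, Fintype.card_prod, ZMod.card, Fintype.card_fin,
      Fintype.card_fin]
    have h2 : (((2 * m + 1) * (m * w) : ℕ) : ℝ) ≤ d := by
      push_cast
      have h3 : N * m * w ≤ (d : ℝ) := by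
        refine hw.trans ?_
        have : 0 ≤ 3 / (2 * Λ) * (d : ℝ) := by positivity
        nlinarith
      rw [hNdef] at h3
      linarith
    exact_mod_cast h2
  have hcardB : (univ.filter (fun b : Fin k => b ∈ Set.range e1)).card ≤ DB := by
    have h1 : univ.filter (fun b : Fin k => b ∈ Set.range e1) ⊆ univ.image e1 := by
      intro b hb
      rw [mem_filter] at hb
      obtain ⟨x, hx⟩ := hb.2
      exact mem_image.mpr ⟨x, mem_univ _, hx⟩
    refine (card_le_card h1).trans (card_image_le.trans ?_)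
    rw [card_univ, Fintype.card_prod, Fintype.card_prod, Fintype.card_fin,
      Fintype.card_fin]
    exact hK1w
  obtain ⟨IA, hIA⟩ : ∃ IA : V → Finset (Fin k), IA = fun u =>
    univ.filter (fun b => b ∈ Set.range e ∧ b ≠ c0 u ∧ b ≠ tu u) := ⟨_, rfl⟩
  obtain ⟨IB, hIB⟩ : ∃ IB : V → Finset (Fin k), IB = fun u =>
    univ.filter (fun b => b ∈ Set.range e1 ∧ b ≠ c0 u ∧ b ≠ tu u) := ⟨_, rfl⟩
  have hIAm : ∀ u b, b ∈ IA u ↔ b ∈ Set.range e ∧ b ≠ c0 u ∧ b ≠ tu u := by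
    intro u b
    rw [hIA]
    simp only [mem_filter, mem_univ, true_and]
  have hIBm : ∀ u b, b ∈ IB u ↔ b ∈ Set.range e1 ∧ b ≠ c0 u ∧ b ≠ tu u := by
    intro u b
    rw [hIB]
    simp only [mem_filter, mem_univ, true_and]
  have hIAc : ∀ u, (IA u).card ≤ d := by
    intro u
    refine (card_le_card ?_).trans hcardA
    intro b hb
    rw [mem_filter]
    exact ⟨mem_univ _, ((hIAm u b).mp hb).1⟩
  have hIBc : ∀ u, (IB u).card ≤ DB := by
    intro u
    refine (card_le_card ?_).trans hcardB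
    intro b hb
    rw [mem_filter]
    exact ⟨mem_univ _, ((hIBm u b).mp hb).1⟩
  have hX1 : ∀ u, (1 - 1 / (24 * Λ)) * (d : ℝ) ≤ ((nb G u).card : ℝ) := hBG.low
  have hX2 : ∀ u, ((nb G u).card : ℝ) ≤ d := fun u => by exact_mod_cast hBG.deg u
  -- the colours e x
  obtain ⟨AlA, hAlA⟩ : ∃ AlA : V → Fin k → Finset V, AlA = fun u b =>
    (nb G u).filter (fun v => v ∉ UH ∧ (lab v).2.1 ≠ 0 ∧ c v ≠ b ∧
      ∃ x, e x = b ∧ (lab v).1 ∈ c3 x.1 x.2.1) := ⟨_, rfl⟩
  have hAlm : ∀ u b v, v ∈ AlA u b ↔ G.Adj u v ∧ v ∉ UH ∧ (lab v).2.1 ≠ 0 ∧ c v ≠ b ∧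
      ∃ x, e x = b ∧ (lab v).1 ∈ c3 x.1 x.2.1 := by
    intro u b v
    rw [hAlA]
    simp only [mem_filter, mem_nb]
  obtain ⟨SS, hSS⟩ : ∃ SS : Finset V, SS = univ.filter (fun v => v ∉ UH ∧ inM (lab v)) := ⟨_, rfl⟩
  have hSm : ∀ v, v ∈ SS ↔ v ∉ UH ∧ inM (lab v) := by
    intro v
    rw [hSS]
    simp only [mem_filter, mem_univ, true_and]
  have h2l : 2 ≤ l := by omega
  obtain ⟨fA, hfA1, hfA2, hfA3, hfAS, hfA4⟩ := hdA G d DA (3 * (m * w) - 4) tt k UH U1 SS pt IA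
    AlA hd1 htt2 (by omega) hBG.deg hH.two hU1 hpt hinv hsp
    (fun u _ => hIAc u)
    (fun u _ b hb => by
      refine ⟨fun v hv => mem_nb.mpr ((hAlm u b v).mp hv).1, ?_⟩
      obtain ⟨⟨x, hx⟩, _, _⟩ := (hIAm u b).mp hb
      have h1 := lowA hL hH he hV u x
      rw [← hNdef, ← hΛdef] at h1
      have h2 := numA hN3 hΛ41 hr' hd3 (hX1 u) (hX2 u) rfl
      have h3 : (2 * (l : ℝ)) = Λ - 1 := by rw [hΛdef]; ring
      rw [h3] at h1
      have h4 : (((nb G u).filter (fun v => v ∉ UH ∧ (lab v).2.1 ≠ 0 ∧ c v ≠ e x ∧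
          (lab v).1 ∈ c3 x.1 x.2.1)).card : ℝ) ≤ ((AlA u b).card : ℝ) := by
        have h5 : (nb G u).filter (fun v => v ∉ UH ∧ (lab v).2.1 ≠ 0 ∧ c v ≠ e x ∧
          (lab v).1 ∈ c3 x.1 x.2.1) ⊆ AlA u b := by
          intro v hv
          rw [mem_filter, mem_nb] at hv
          obtain ⟨g1, g2, g3, g4, g5⟩ := hv
          exact (hAlm u b v).mpr ⟨g1, g2, g3, by rw [← hx]; exact g4, x, hx, g5⟩
        exact_mod_cast card_le_card h5
      have h6 : (DA : ℝ) + 1 ≤ ((AlA u b).card : ℝ) := by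
        linarith
      exact_mod_cast h6)
    (fun u _ v => by
      rw [hDA]
      refine Nat.add_le_add_right ?_ _
      refine le_trans (card_le_card ?_) (cntA (e := e) (lab v).1 (IA u))
      intro b hb
      rw [mem_filter] at hb ⊢
      exact ⟨hb.1, ((hAlm u b v).mp hb.2).2.2.2.2⟩)
    (fun u _ v hv => by
      rw [mem_inter, mem_nb, hSm] at hv
      obtain ⟨g1, g2, g3⟩ := hv
      have g4 : (lab v).2.1 ≠ 0 := by
        intro h0
        have := g3.1
        rw [h0, ZMod.val_zero] at this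
        omega
      have h1 : (univ.filter (fun b => ∃ x, e x = b ∧ (lab v).1 ∈ c3 x.1 x.2.1)) ⊆
          ((IA u).filter (fun b => v ∈ AlA u b)) ∪ {c0 u, tu u, c v} := by
        intro b hb
        rw [mem_filter] at hb
        rw [mem_union, mem_filter, hIAm, hAlm, mem_insert, mem_insert, mem_singleton]
        by_cases q1 : b = c0 u
        · exact Or.inr (Or.inl q1)
        · by_cases q2 : b = tu u
          · exact Or.inr (Or.inr (Or.inl q2))
          · by_cases q3 : b = c v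
            · exact Or.inr (Or.inr (Or.inr q3))
            · left
              obtain ⟨x, hx, hx2⟩ := hb.2
              exact ⟨⟨⟨x, hx⟩, q1, q2⟩, g1, g2, g4, fun h => q3 h.symm, x, hx, hx2⟩
      have h2 := (card_le_card h1).trans (card_union_le _ _)
      have h3 := card_le_three (a := c0 u) (b := tu u) (c := c v)
      have h4 := cntA2 (w := w) he (lab v).1
      omega)
    (fun u _ b hb => by
      obtain ⟨⟨x, hx⟩, _, _⟩ := (hIAm u b).mp hb
      have h1 := uppS (w := w) hL h2l u x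
      rw [← hNdef, ← hΛdef] at h1
      have h2 := numS hN3 hΛ41 hd3 (hX2 u) rfl
      have h3 : (2 * (l : ℝ) - 3) = Λ - 4 := by rw [hΛdef]; ring
      rw [h3] at h1
      have h4 : ((AlA u b ∩ SS).card : ℝ) ≤
          (((nb G u).filter (fun v => (lab v).1 ∈ c3 x.1 x.2.1 ∧ inM (lab v))).card : ℝ) := by
        have h5 : AlA u b ∩ SS ⊆
          (nb G u).filter (fun v => (lab v).1 ∈ c3 x.1 x.2.1 ∧ inM (lab v)) := by
          intro v hv
          rw [mem_inter, hAlm, hSm] at hv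
          obtain ⟨⟨g1, _, _, _, x', hx', g2⟩, _, g3⟩ := hv
          have hxx : x' = x := he (hx'.trans hx.symm)
          rw [hxx] at g2
          rw [mem_filter, mem_nb]
          exact ⟨g1, g2, g3⟩
        exact_mod_cast card_le_card h5
      have h6 : (((AlA u b ∩ SS).card + tt + 4 : ℕ) : ℝ) ≤ ((3 * (m * w) : ℕ) : ℝ) := by
        push_cast
        linarith
      have h7 : (AlA u b ∩ SS).card + tt + 4 ≤ 3 * (m * w) := by exact_mod_cast h6
      omega)
  -- the colours e1 y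
  obtain ⟨AlB, hAlB⟩ : ∃ AlB : V → Fin k → Finset V, AlB = fun u b =>
    (nb G u).filter (fun v => v ∉ UH ∧ (lab v).2.1 = 0 ∧
      ∃ y, e1 y = b ∧ (lab v).2.2.2.2.2 ≠ y.1 ∧ (lab v).2.2.2.2.2 ≠ y.2.1) := ⟨_, rfl⟩
  have hAlmB : ∀ u b v, v ∈ AlB u b ↔ G.Adj u v ∧ v ∉ UH ∧ (lab v).2.1 = 0 ∧
      ∃ y, e1 y = b ∧ (lab v).2.2.2.2.2 ≠ y.1 ∧ (lab v).2.2.2.2.2 ≠ y.2.1 := by
    intro u b v
    rw [hAlB]
    simp only [mem_filter, mem_nb]
  obtain ⟨fB, hfB1, hfB2, hfB3, hfB4⟩ := hdB G d DB k UH U1 pt IB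
    AlB hd2 hDB1 hDBd
    hBG.deg hH.two hU1 hpt hinv hsp (fun u _ => (hIBc u).trans hDBd)
    (fun u _ b hb => by
      refine ⟨fun v hv => mem_nb.mpr ((hAlmB u b v).mp hv).1, ?_⟩
      obtain ⟨⟨y, hy⟩, _, _⟩ := (hIBm u b).mp hb
      have h1 := lowB2 hL hH hK4 u y.1 y.2.1
      rw [← hΛdef] at h1
      have h2 := numB hN3 hΛ41 hd3 (hX1 u) rfl
      have h4 : (((nb G u).filter (fun v => v ∉ UH ∧ (lab v).2.1 = 0 ∧
          (lab v).2.2.2.2.2 ≠ y.1 ∧ (lab v).2.2.2.2.2 ≠ y.2.1)).card : ℝ) ≤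
          ((AlB u b).card : ℝ) := by
        have h5 : (nb G u).filter (fun v => v ∉ UH ∧ (lab v).2.1 = 0 ∧
          (lab v).2.2.2.2.2 ≠ y.1 ∧ (lab v).2.2.2.2.2 ≠ y.2.1) ⊆ AlB u b := by
          intro v hv
          rw [mem_filter, mem_nb] at hv
          obtain ⟨g1, g2, g3, g4, g5⟩ := hv
          exact (hAlmB u b v).mpr ⟨g1, g2, g3, y, hy, g4, g5⟩
        exact_mod_cast card_le_card h5
      have h6 : (DB : ℝ) + 1 ≤ ((AlB u b).card : ℝ) := by
        linarith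
      exact_mod_cast h6)
    (fun u _ v => (card_le_card (filter_subset _ _)).trans (hIBc u))
  obtain ⟨wv, hwv⟩ : ∃ wv : V → Fin k → V, wv = fun u b =>
    if b ∈ Set.range e then fA u b else fB u b := ⟨_, rfl⟩
  have hwA : ∀ u b, b ∈ Set.range e → wv u b = fA u b := by
    intro u b hb
    rw [hwv]
    exact if_pos hb
  have hne : ∀ b, b ∈ Set.range e1 → b ∉ Set.range e := by
    rintro b ⟨y, hy⟩ ⟨x, hx⟩
    exact hee x y (hx.trans hy.symm)
  have hwB : ∀ u b, b ∈ Set.range e1 → wv u b = fB u b := by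
    intro u b hb
    rw [hwv]
    exact if_neg (hne b hb)
  have memA : ∀ u ∈ UH, ∀ b, b ≠ c0 u → b ≠ tu u → b ∈ Set.range e →
      G.Adj u (wv u b) ∧ wv u b ∉ UH ∧ (lab (wv u b)).2.1 ≠ 0 ∧ c (wv u b) ≠ b ∧
      ∃ x, e x = b ∧ (lab (wv u b)).1 ∈ c3 x.1 x.2.1 := by
    intro u hu b h1 h2 h3
    have h4 := hfA1 u hu b ((hIAm u b).mpr ⟨h3, h1, h2⟩)
    rw [hAlm] at h4
    rw [hwA u b h3]
    exact h4
  have memB : ∀ u ∈ UH, ∀ b, b ≠ c0 u → b ≠ tu u → b ∈ Set.range e1 →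
      G.Adj u (wv u b) ∧ wv u b ∉ UH ∧ (lab (wv u b)).2.1 = 0 ∧
      ∃ y, e1 y = b ∧ (lab (wv u b)).2.2.2.2.2 ≠ y.1 ∧
        (lab (wv u b)).2.2.2.2.2 ≠ y.2.1 := by
    intro u hu b h1 h2 h3
    have h4 := hfB1 u hu b ((hIBm u b).mpr ⟨h3, h1, h2⟩)
    rw [hAlmB] at h4
    rw [hwB u b h3]
    exact h4
  refine ⟨wv, ?_, ?_, ?_, ?_, ?_, ?_, ?_⟩
  · intro u hu b h1 h2 h3
    rcases h3 with h3 | h3
    · obtain ⟨g1, g2, g3, g4, g5⟩ := memA u hu b h1 h2 h3
      exact ⟨g1, g2, g4⟩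
    · obtain ⟨g1, g2, g3, _⟩ := memB u hu b h1 h2 h3
      refine ⟨g1, g2, ?_⟩
      obtain ⟨y, hy, _⟩ := hV.cP _ g2
      rw [hy]
      intro h4
      exact hne b h3 ⟨_, h4⟩
  · intro u hu b b' h1 h2 h1' h2' h3 h3' h4
    rcases h3 with h3 | h3
    · rcases h3' with h3' | h3'
      · rw [hwA u b h3, hwA u b' h3'] at h4
        exact hfA2 u hu (mem_coe.mpr ((hIAm u b).mpr ⟨h3, h1, h2⟩))
          (mem_coe.mpr ((hIAm u b').mpr ⟨h3', h1', h2'⟩)) h4
      · exfalso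
        have g1 := (memA u hu b h1 h2 h3).2.2.1
        have g2 := (memB u hu b' h1' h2' h3').2.2.1
        rw [h4] at g1
        exact g1 g2
    · rcases h3' with h3' | h3'
      · exfalso
        have g1 := (memA u hu b' h1' h2' h3').2.2.1
        have g2 := (memB u hu b h1 h2 h3).2.2.1
        rw [← h4] at g1
        exact g1 g2
      · rw [hwB u b h3, hwB u b' h3'] at h4
        exact hfB2 u hu (mem_coe.mpr ((hIBm u b).mpr ⟨h3, h1, h2⟩))
          (mem_coe.mpr ((hIBm u b').mpr ⟨h3', h1', h2'⟩)) h4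
  · intro u hu u' hu' b h1 h2 h1' h2' h3 h4
    have g1 : G.Adj u (wv u b) := by
      rcases h3 with h3 | h3
      · exact (memA u hu b h1 h2 h3).1
      · exact (memB u hu b h1 h2 h3).1
    have g2 : G.Adj u' (wv u' b) := by
      rcases h3 with h3 | h3
      · exact (memA u' hu' b h1' h2' h3).1
      · exact (memB u' hu' b h1' h2' h3).1
    rw [← h4] at g2
    rcases hH.far (wv u b) u hu u' hu' g1.symm g2.symm with h5 | h5
    · exact h5
    · exfalso
      have h6 : u' = pt u := hadj u u' hu h5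
      rw [h6] at h4 h1' h2'
      rcases h3 with h3 | h3
      · rw [hwA u b h3, hwA _ b h3] at h4
        exact hfA3 u hu b ((hIAm u b).mpr ⟨h3, h1, h2⟩)
          ((hIAm (pt u) b).mpr ⟨h3, h1', h2'⟩) h4
      · rw [hwB u b h3, hwB _ b h3] at h4
        exact hfB3 u hu b ((hIBm u b).mpr ⟨h3, h1, h2⟩)
          ((hIBm (pt u) b).mpr ⟨h3, h1', h2'⟩) h4
  · intro u hu x h1 h2
    obtain ⟨_, _, _, _, x', hx', h3⟩ := memA u hu (e x) h1 h2 ⟨x, rfl⟩
    rw [he hx'] at h3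
    exact h3
  · intro u hu y h1 h2
    obtain ⟨_, _, g1, y', hy', g2, g3⟩ := memB u hu (e1 y) h1 h2 ⟨y, rfl⟩
    rw [he1 hy'] at g2 g3
    exact ⟨g1, g2, g3⟩
  · intro u hu v h1 h2 h3
    obtain ⟨b, hb, hfb⟩ := hfAS u hu v (mem_inter.mpr ⟨mem_nb.mpr h1, (hSm v).mpr ⟨h2, h3⟩⟩)
    obtain ⟨⟨x, hx⟩, g1, g2⟩ := (hIAm u b).mp hb
    refine ⟨x, by rw [hx]; exact g1, by rw [hx]; exact g2, ?_⟩
    rw [hwA u (e x) ⟨x, rfl⟩, hx]
    exact hfb
  · intro v b hb
    rcases hb with hb | hb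
    · refine le_trans ?_ (hfA4 v b)
      have h1 : nb G v ∩ UW UH c0 tu wv b ⊆
          (nb G v).filter (fun x => ∃ u ∈ UH, b ∈ IA u ∧ fA u b = x) := by
        intro x hx
        unfold UW at hx
        rw [mem_inter, mem_filter] at hx
        obtain ⟨hx1, _, u, hu, g1, g2, g3⟩ := hx
        rw [mem_filter]
        refine ⟨hx1, u, hu, (hIAm u b).mpr ⟨hb, g1, g2⟩, ?_⟩
        rw [← hwA u b hb]
        exact g3
      exact_mod_cast card_le_card h1
    · refine le_trans ?_ (hfB4 v b)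
      have h1 : nb G v ∩ UW UH c0 tu wv b ⊆
          (nb G v).filter (fun x => ∃ u ∈ UH, b ∈ IB u ∧ fB u b = x) := by
        intro x hx
        unfold UW at hx
        rw [mem_inter, mem_filter] at hx
        obtain ⟨hx1, _, u, hu, g1, g2, g3⟩ := hx
        rw [mem_filter]
        refine ⟨hx1, u, hu, (hIBm u b).mpr ⟨hb, g1, g2⟩, ?_⟩
        rw [← hwB u b hb]
        exact g3
      exact_mod_cast card_le_card h1

end Pool.Agent.Work.MP_db9399_lc.helper84
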